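import Mathlib
import Pool.Agent.X28.SX.StepI
import Pool.Agent.Y877.SxK
import Pool.Agent.Helper602.Est

/-!
# Decompositions `n = k + m` with `p_k + 2` an almost prime and `p_k + t`, `p_{p_m} + u` prime, for almost all shifts

For every large `n` and almost all vectors of shifts `t_i, u_i`, `i < r` (multiples of a small primorial), among the
`k < n` for which `p_k + 2` has at most two prime factors, all the numbers `p_k + t_i`, `p_{p_m} + u_i`, `m = n - k`, are
prime for at least `1 - ε` times the expected number of `k`.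
-/

set_option autoImplicit false

namespace Pool.Agent.Results.MP_04e9b2_nt.ChenIndicesAndShifts

open Finset Filter

/-- the `k`-th prime, `p 1 = 2` -/
noncomputable def p (k : ℕ) : ℕ := Nat.nth Nat.Prime (k - 1)

/-- the product of `1 - 1/q` over the primes `q ≤ y` -/
noncomputable def V (y : ℕ) : ℝ := ∏ q ∈ (Icc 1 y).filter Nat.Prime, (1 - 1 / (q : ℝ))

/-- the two primes `p_k` and `p_{p_m}` of the question, `m = n - k` -/
noncomputable def base (n : ℕ) (c : Fin 2) (k : ℕ) : ℕ := ![p k, p (p (n - k))] c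

open Classical in
/-- the `k ∈ K` for which all the numbers `p_k + t (0, i)` and `p_{p_m} + t (1, i)`, `i < r`, `m = n - k`, are prime -/
noncomputable def Good (n : ℕ) (K : Finset ℕ) {r : ℕ} (t : Fin 2 × Fin r → ℕ) : Finset ℕ :=
  K.filter (fun k => ∀ i, (base n i.1 k + t i).Prime)

/-- the `0 < k < n` for which `p_k + 2` has at most two prime factors (with multiplicity) -/
noncomputable def Chen (n : ℕ) : Finset ℕ :=
  (Ioo 0 n).filter (fun k => (p k + 2).primeFactorsList.length ≤ 2)

open Classical in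
/-- the conclusion for the set `K`: for all but at most `ε (G 0 * G 1) ^ r` of the vectors `g` with
`g (c, i) ∈ [1, G c]` (`c < 2`, `i < r`) all the numbers `p_k + t (0, i)`, `p_{p_m} + t (1, i)` with
`t (c, i) = M (g₀ c + g (c, i))` are prime for at least `(1 - ε) #K / (V y log n) ^ (2 r)` elements `k` of `K`; `M` is the
product of the primes up to `y` -/
def Sharp (n r y : ℕ) (g₀ G : Fin 2 → ℕ) (ε : ℝ) (K : Finset ℕ) : Prop :=
  (((Fintype.piFinset (fun i : Fin 2 × Fin r => Icc 1 (G i.1))).filter (fun g =>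
    ((Good n K (fun i => primorial y * (g₀ i.1 + g i))).card : ℝ) <
      (1 - ε) * (K.card / (V y * Real.log n) ^ (2 * r)))).card : ℝ) ≤ ε * ((G 0 : ℝ) * G 1) ^ r

theorem base_inj (n : ℕ) (c : Fin 2) : Set.InjOn (base n c) (Ioo 0 n : Finset ℕ) := by
  intro a ha b hb hab
  rw [mem_coe, mem_Ioo] at ha hb
  fin_cases c
  · exact Pool.Agent.X28.SX.nth_inj' (a := a) (b := b) (by omega) (by omega) hab
  · have h1 := Pool.Agent.X28.SX.nth_two (n - a - 1)
    have h2 := Pool.Agent.X28.SX.nth_two (n - b - 1)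
    have h3 := Pool.Agent.X28.SX.nth_inj' (a := p (n - a)) (b := p (n - b)) (by unfold p; omega) (by unfold p; omega) hab
    have h4 := Pool.Agent.X28.SX.nth_inj' (a := n - a) (b := n - b) (by omega) (by omega) h3
    omega

/-- many `k < n` with `p_k + 2` an almost prime -/
theorem chen_low : ∃ c : ℝ, 0 < c ∧ ∃ n₀ : ℕ, ∀ n : ℕ, n₀ ≤ n → c * n / Real.log n ≤ ((Chen n).card : ℝ) := by
  classical
  obtain ⟨κ, hκ, X0, hX0⟩ := Pool.Agent.Y877.SX.chen_cnt
  obtain ⟨D, hD, hpi⟩ := Pool.Agent.Helper602.Est.cheb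
  obtain ⟨n2, hn2⟩ := Pool.Agent.X28.SX.nth_le
  obtain ⟨n3, hn3⟩ := Pool.Agent.H373R2.T7.ev_L' 8
  refine ⟨κ / (18 * D), by positivity, max (X0 + 4) (max n2 n3), fun n hn => ?_⟩
  have b1 : X0 + 4 ≤ n := le_trans (le_max_left _ _) hn
  have b2 : n2 ≤ n := le_trans (le_trans (le_max_left _ _) (le_max_right _ _)) hn
  have b3 : n3 ≤ n := le_trans (le_trans (le_max_right _ _) (le_max_right _ _)) hn
  have hL : 8 ≤ Real.log n := hn3 n b3
  obtain ⟨P, hP⟩ : ∃ P : ℕ, P = p n := ⟨_, rfl⟩
  have hPp : P.Prime := by rw [hP]; exact Nat.prime_nth_prime _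
  have hnP : n ≤ P := by
    have h1 : n - 1 + 2 ≤ P := by
      rw [hP]
      exact Nat.add_two_le_nth_prime (n - 1)
    omega
  have hPn : (P : ℝ) ≤ n * Real.log n ^ 2 := by rw [hP]; exact hn2 n b2 n (by omega)
  have hn0 : (0 : ℝ) < n := by
    have : 0 < n := by omega
    exact_mod_cast this
  have hcount : Nat.primeCounting P = n := by
    rw [Nat.primeCounting, Nat.primeCounting', Nat.count_succ, if_pos hPp, hP]
    unfold p
    rw [Nat.count_nth_of_infinite Nat.infinite_setOfPred_prime]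
    omega
  have hP2 : 2 ≤ P := hPp.two_le
  have hPr : (0 : ℝ) < P := by
    have : 0 < P := by omega
    exact_mod_cast this
  have hnPr : (n : ℝ) ≤ P := by exact_mod_cast hnP
  have hlP : Real.log n ≤ Real.log P := Real.log_le_log hn0 hnPr
  have hlP0 : 0 < Real.log P := by linarith
  have k1 := hpi P hP2
  rw [hcount, le_div_iff₀ hlP0] at k1
  -- `n log n ≤ D P`
  have k2 : (n : ℝ) * Real.log n ≤ D * P := (mul_le_mul_of_nonneg_left hlP hn0.le).trans k1
  obtain ⟨X, hX⟩ : ∃ X : ℕ, X = P - 1 := ⟨_, rfl⟩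
  have hX2 : P ≤ 2 * X := by omega
  have hX2r : (P : ℝ) ≤ 2 * X := by exact_mod_cast hX2
  have hXb : X0 ≤ X := by omega
  have hXP : (X : ℝ) ≤ n * Real.log n ^ 2 := by
    refine le_trans ?_ hPn
    rw [Nat.cast_le]
    omega
  have hX3 : 3 ≤ X := by omega
  have hX0r : (0 : ℝ) < X := by
    have : 0 < X := by omega
    exact_mod_cast this
  have hlX : 0 < Real.log X := Real.log_pos (by
    have : 1 < X := by omega
    exact_mod_cast this)
  have hlX2 : Real.log X ≤ 3 * Real.log n := by
    have h1 : Real.log X ≤ Real.log (n * Real.log n ^ 2) := Real.log_le_log hX0r hXP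
    rw [Real.log_mul hn0.ne' (by positivity), Real.log_pow] at h1
    have h2 : Real.log (Real.log n) ≤ Real.log n := by
      have := Real.log_le_sub_one_of_pos (show 0 < Real.log n by linarith)
      linarith
    push_cast at h1
    linarith
  have hlX3 : Real.log X ^ 2 ≤ 9 * Real.log n ^ 2 := by
    have := pow_le_pow_left₀ hlX.le hlX2 2
    calc Real.log X ^ 2 ≤ (3 * Real.log n) ^ 2 := this
      _ = _ := by ring
  have k3 := hX0 X hXb (-2) (by norm_num) (by
    rw [abs_neg, abs_two]
    exact_mod_cast (by omega : 2 ≤ X)) (by decide)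
  have k4 : κ / (18 * D) * n / Real.log n ≤ κ * X / Real.log X ^ 2 := by
    rw [div_le_div_iff₀ (by linarith) (by positivity)]
    have hL0 : 0 < Real.log n := by linarith
    calc κ / (18 * D) * n * Real.log X ^ 2 ≤ κ / (18 * D) * n * (9 * Real.log n ^ 2) := by
          apply mul_le_mul_of_nonneg_left hlX3 (by positivity)
      _ = κ / (2 * D) * (n * Real.log n) * Real.log n := by field_simp; ring
      _ ≤ κ / (2 * D) * (D * P) * Real.log n := by
          apply mul_le_mul_of_nonneg_right _ hL0.le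
          exact mul_le_mul_of_nonneg_left k2 (by positivity)
      _ = κ / 2 * P * Real.log n := by field_simp
      _ ≤ κ / 2 * (2 * X) * Real.log n := by
          apply mul_le_mul_of_nonneg_right _ hL0.le
          exact mul_le_mul_of_nonneg_left hX2r (by positivity)
      _ = κ * X * Real.log n := by ring
  refine k4.trans (k3.trans ?_)
  rw [Nat.cast_le]
  apply card_le_card_of_injOn (fun q => Nat.count Nat.Prime q + 1)
  · intro q hq
    rw [mem_coe, mem_filter, mem_Ioc] at hq
    obtain ⟨⟨hq0, hqX⟩, hqp, -, hq2⟩ := hq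
    rw [mem_coe]
    unfold Chen
    rw [mem_filter, mem_Ioo]
    change (0 < Nat.count Nat.Prime q + 1 ∧ Nat.count Nat.Prime q + 1 < n) ∧
      (p (Nat.count Nat.Prime q + 1) + 2).primeFactorsList.length ≤ 2
    have e1 : p (Nat.count Nat.Prime q + 1) = q := by
      unfold p
      rw [Nat.add_sub_cancel]
      exact Nat.nth_count hqp
    refine ⟨⟨by omega, ?_⟩, ?_⟩
    · by_contra hcon
      have h1 : n - 1 ≤ Nat.count Nat.Prime q := by omega
      have h2 : Nat.nth Nat.Prime (n - 1) ≤ Nat.nth Nat.Prime (Nat.count Nat.Prime q) :=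
        (Nat.nth_strictMono Nat.infinite_setOfPred_prime).monotone h1
      rw [Nat.nth_count hqp] at h2
      have h3 : P ≤ q := by rw [hP]; exact h2
      omega
    · rw [e1]
      have e2 : ((-2 : ℤ) - (q : ℤ)).natAbs = q + 2 := by omega
      rwa [e2] at hq2
  · intro a ha b hb hab
    rw [mem_coe, mem_filter] at ha hb
    have h1 : Nat.count Nat.Prime a = Nat.count Nat.Prime b := by
      have : Nat.count Nat.Prime a + 1 = Nat.count Nat.Prime b + 1 := hab
      omega
    have h2 := Nat.nth_count ha.2.1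
    have h3 := Nat.nth_count hb.2.1
    rw [h1, h3] at h2
    exact h2.symm

/-- There is an absolute constant `c > 0` such that for all `r`, `A`, `C` and `0 < ε ≤ 1` there is `K₀` such that for
every `K₁` and every large `n`, every `y` between `K₀ log log n` and `K₁ log log n`, with `M` the product of the primes
`≤ y`, and all windows `(g₀ c, g₀ c + G c]`, `c < 2`, with `M (g₀ c + G c) ≤ n`, `G c ≥ n / (M log ^ C n)`:
(1) for every set `K` of at least `n / log ^ A n` integers `0 < k < n`, for all but at most `ε (G 0 * G 1) ^ r` of the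
vectors `g` with `g (c, i) ∈ [1, G c]` all the numbers `p_k + t (0, i)`, `p_{p_m} + t (1, i)`, `i < r`, `m = n - k`,
`t (c, i) = M (g₀ c + g (c, i))`, are prime for at least `(1 - ε) #K / (V y log n) ^ (2 r)` elements `k` of `K`;
(2) there are at least `c n / log n` integers `0 < k < n` for which `p_k + 2` has at most two prime factors, and the
conclusion of (1) holds for the set of all of them. -/
theorem result : ∃ c : ℝ, 0 < c ∧ ∀ (r A C : ℕ) (ε : ℝ), 0 < ε → ε ≤ 1 → ∃ K₀ : ℕ, ∀ K₁ : ℕ, ∃ n₀ : ℕ, ∀ n : ℕ, n₀ ≤ n →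
    ∀ y : ℕ, K₀ * Real.log (Real.log n) ≤ y → y ≤ K₁ * Real.log (Real.log n) →
    ∀ g₀ G : Fin 2 → ℕ, (∀ c, primorial y * (g₀ c + G c) ≤ n) →
    (∀ c, (n : ℝ) ≤ primorial y * G c * Real.log n ^ C) →
    (∀ K : Finset ℕ, K ⊆ Ioo 0 n → (n : ℝ) ≤ K.card * Real.log n ^ A → Sharp n r y g₀ G ε K) ∧
    c * n / Real.log n ≤ ((Chen n).card : ℝ) ∧ Sharp n r y g₀ G ε (Chen n) := by
  classical
  obtain ⟨c, hc, n0, hn0⟩ := chen_low
  refine ⟨c, hc, ?_⟩
  intro r A C ε hε hε1
  obtain ⟨K₀, hK₀⟩ := Pool.Agent.X28.SX.stepI (ι := Fin 2 × Fin r) (fun _ => 1) (fun _ => Or.inl rfl) (max A 2) 5 C ε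
    hε hε1
  refine ⟨K₀, fun K₁ => ?_⟩
  obtain ⟨n1, hn1⟩ := hK₀ K₁
  obtain ⟨n2, hn2⟩ := Pool.Agent.X28.SX.nth_le
  obtain ⟨n3, hn3⟩ := Pool.Agent.X28.SX.nth_nth_le
  obtain ⟨n4, hn4⟩ := Pool.Agent.H373R2.T7.ev_L' (max 6 (1 / c))
  refine ⟨max n1 (max n2 (max n0 (max n3 n4))), fun n hn y hy1 hy2 g₀ G hg1 hg2 => ?_⟩
  have b1 : n1 ≤ n := le_trans (le_max_left _ _) hn
  have b2 : n2 ≤ n := le_trans (le_trans (le_max_left _ _) (le_max_right _ _)) hn
  have b3 : n0 ≤ n := le_trans (le_trans (le_trans (le_max_left _ _) (le_max_right _ _)) (le_max_right _ _)) hn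
  have b4 : max n3 n4 ≤ n := le_trans (le_trans (le_trans (le_max_right _ _) (le_max_right _ _)) (le_max_right _ _)) hn
  have b5 : n3 ≤ n := le_trans (le_max_left _ _) b4
  have b6 : n4 ≤ n := le_trans (le_max_right _ _) b4
  have hL6 : 6 ≤ Real.log n := (le_max_left _ _).trans (hn4 n b6)
  have hLc : 1 / c ≤ Real.log n := (le_max_right _ _).trans (hn4 n b6)
  have hL0 : 0 < Real.log n := by linarith
  have hL1 : 1 ≤ Real.log n := by linarith
  have hn00 : (0 : ℝ) ≤ n := Nat.cast_nonneg _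
  have hpow : (n : ℝ) * Real.log n ^ 2 ≤ n * Real.log n ^ 5 :=
    mul_le_mul_of_nonneg_left (pow_le_pow_right₀ hL1 (by norm_num)) hn00
  have main : ∀ K : Finset ℕ, K ⊆ Ioo 0 n →
      (n : ℝ) ≤ K.card * Real.log n ^ (max A 2) → Sharp n r y g₀ G ε K := by
    intro K hK hKc
    have hbd : ∀ c : Fin 2, ∀ k ∈ K, (base n c k).Prime ∧ (base n c k : ℝ) ≤ n * Real.log n ^ 5 := by
      intro c k hk
      have hk' := hK hk
      rw [mem_Ioo] at hk'
      fin_cases c
      · exact ⟨Nat.prime_nth_prime _, (hn2 n b2 k (by omega)).trans hpow⟩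
      · exact ⟨Nat.prime_nth_prime _, hn3 n b5 (n - k) (by omega)⟩
    have h1 := hn1 n b1 y hy1 hy2 K hKc (fun i => base n i.1) (fun i => (base_inj n i.1).mono (by exact_mod_cast hK))
      (fun i k hk => hbd i.1 k hk) (fun i => g₀ i.1) (fun i => G i.1) (fun i => by rw [pow_one]; exact hg1 i.1)
      (fun i => by rw [pow_one]; exact hg2 i.1)
    have hcd : Fintype.card (Fin 2 × Fin r) = 2 * r := by simp
    have hG : ∏ i : Fin 2 × Fin r, (G i.1 : ℝ) = ((G 0 : ℝ) * G 1) ^ r := by
      rw [Fintype.prod_prod_type]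
      simp only [prod_const, card_univ, Fintype.card_fin, Fin.prod_univ_two]
      rw [mul_pow]
    rw [hG] at h1
    simp only [prod_const, card_univ, hcd] at h1
    unfold Sharp
    refine le_trans (le_of_eq ?_) h1
    congr 2
    apply filter_congr
    intro g _
    have e1 : Pool.Agent.H373R2.T7.Vz y * (((1 : ℕ) : ℝ) * Real.log n) = V y * Real.log n := by
      have : Pool.Agent.H373R2.T7.Vz y = V y := rfl
      rw [this]
      push_cast
      ring
    rw [e1]
    simp only [pow_one]
    rfl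
  refine ⟨fun K hK hKc => main K hK (hKc.trans ?_), hn0 n b3, ?_⟩
  · exact mul_le_mul_of_nonneg_left (pow_le_pow_right₀ hL1 (le_max_left _ _)) (Nat.cast_nonneg _)
  · apply main
    · exact filter_subset _ _
    · have h1 := hn0 n b3
      rw [div_le_iff₀ (by positivity)] at h1
      have h2 : (n : ℝ) ≤ (Real.log n * c) * n := by
        have h3 : 1 ≤ Real.log n * c := by
          rwa [div_le_iff₀ hc] at hLc
        nlinarith
      calc (n : ℝ) ≤ (Real.log n * c) * n := h2
        _ = Real.log n * (c * n) := by ring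
        _ ≤ Real.log n * ((Chen n).card * Real.log n) := mul_le_mul_of_nonneg_left h1 hL0.le
        _ = (Chen n).card * Real.log n ^ 2 := by ring
        _ ≤ (Chen n).card * Real.log n ^ (max A 2) :=
            mul_le_mul_of_nonneg_left (pow_le_pow_right₀ hL1 (le_max_right _ _)) (Nat.cast_nonneg _)

end Pool.Agent.Results.MP_04e9b2_nt.ChenIndicesAndShifts
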