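import Mathlib
import Pool.Agent.X28.CS.Step
import Pool.Agent.Results.MP_04e9b2_nt.ChenIndicesAndShifts

/-!
# Decompositions `n = k + m` with `p_k + t` and `p_{p_m} + t` prime for one and the same shift `t`

In the question the same shift `2` is added to `p_k` and to `p_{p_m}`. We show for all large `n` that a positive
proportion of the shifts `t` (multiples of a small primorial in a window) carries `p_k` and `p_{p_m}` at the same time to
primes, for a positive proportion of the expected number of `k` in an arbitrary set of at least `n / (log n) ^ A` indices;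
in particular among the `k` for which `p_k + 2` has at most two prime factors. The same holds for `r` shifts together.
-/

set_option autoImplicit false

namespace Pool.Agent.Results.MP_04e9b2_nt.CommonShift

open Finset

/-- the `k`-th prime, `p 1 = 2` -/
noncomputable def p (k : ℕ) : ℕ := Nat.nth Nat.Prime (k - 1)

/-- the product of `1 - 1/q` over the primes `q ≤ y` -/
noncomputable def V (y : ℕ) : ℝ := ∏ q ∈ (Icc 1 y).filter Nat.Prime, (1 - 1 / (q : ℝ))

/-- the `k ∈ K` for which all the numbers `p_k + t i` and `p_{p_m} + t i`, `i < r`, `m = n - k`, are prime -/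
noncomputable def Good (n : ℕ) (K : Finset ℕ) {r : ℕ} (t : Fin r → ℕ) : Finset ℕ :=
  K.filter (fun k => ∀ i, (p k + t i).Prime ∧ (p (p (n - k)) + t i).Prime)

/-- the `0 < k < n` for which `p_k + 2` has at most two prime factors (with multiplicity) -/
noncomputable def Chen (n : ℕ) : Finset ℕ :=
  (Ioo 0 n).filter (fun k => (p k + 2).primeFactorsList.length ≤ 2)

/-- the conclusion for the set `K`: for at least `(c G) ^ r` of the vectors `g ∈ [1, G] ^ r` all the numbers
`p_k + t_i`, `p_{p_m} + t_i` with `t_i = M (g₀ + g_i)` are prime for at least `c ^ r #K / (V y log n) ^ (2 r)` elements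
`k` of `K`; `M` is the product of the primes up to `y` -/
def Many (n r y g₀ G : ℕ) (c : ℝ) (K : Finset ℕ) : Prop :=
  (c * G) ^ r ≤ (((Fintype.piFinset (fun _ : Fin r => Icc 1 G)).filter (fun g =>
    c ^ r * (K.card / (V y * Real.log n) ^ (2 * r)) ≤
      ((Good n K (fun i => primorial y * (g₀ + g i))).card : ℝ))).card : ℝ)

theorem p_mono {a b : ℕ} (ha : 1 ≤ a) (h : a < b) : p a < p b := by
  unfold p
  exact Nat.nth_strictMono Nat.infinite_setOfPred_prime (by omega)

theorem p_pos (a : ℕ) : 1 ≤ p a := (Nat.prime_nth_prime _).one_lt.le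

theorem Many_mono (n r y g₀ G : ℕ) (c c' : ℝ) (hc : 0 ≤ c) (hcc : c ≤ c') (K : Finset ℕ) (h : Many n r y g₀ G c' K) :
    Many n r y g₀ G c K := by
  unfold Many at h ⊢
  have h1 : (c * G) ^ r ≤ (c' * G) ^ r := by gcongr
  refine h1.trans (h.trans ?_)
  apply Nat.cast_le.2
  apply card_le_card
  intro g hg
  rw [mem_filter] at hg ⊢
  refine ⟨hg.1, le_trans ?_ hg.2⟩
  have h2 : c ^ r ≤ c' ^ r := pow_le_pow_left₀ hc hcc r
  apply mul_le_mul_of_nonneg_right h2
  apply div_nonneg (Nat.cast_nonneg _)
  rw [mul_comm 2 r, pow_mul]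
  positivity

/-- There is an absolute `c > 0` such that for all `r`, `A`, `C` there is `K₀` such that for every `K₁` and every large
`n`, for every `y` between `K₀ log log n` and `K₁ log log n` (with `M` the product of the primes up to `y`) and every
window `(g₀, g₀ + G]` with `M (g₀ + G) ≤ n` and `M G ≥ n / (log n) ^ C`:
(1) for EVERY set `K` of at least `n / (log n) ^ A` integers `0 < k < n`, for at least `(c G) ^ r` of the vectors
`g ∈ [1, G] ^ r` all the numbers `p_k + t_i` and `p_{p_m} + t_i`, `m = n - k`, `t_i = M (g₀ + g_i)`, are prime for at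
least `c ^ r #K / (V y log n) ^ (2 r)` elements `k` of `K`;
(2) at least `c n / log n` of the `0 < k < n` have the property that `p_k + 2` has at most two prime factors, and the
conclusion of (1) holds for the set of all these `k`. -/
theorem result : ∃ c : ℝ, 0 < c ∧ ∀ r A C : ℕ, ∃ K₀ : ℕ, ∀ K₁ : ℕ, ∃ n₀ : ℕ, ∀ n : ℕ, n₀ ≤ n →
    ∀ y : ℕ, K₀ * Real.log (Real.log n) ≤ y → y ≤ K₁ * Real.log (Real.log n) →
    ∀ g₀ G : ℕ, primorial y * (g₀ + G) ≤ n → (n : ℝ) ≤ primorial y * G * Real.log n ^ C →
    (∀ K : Finset ℕ, K ⊆ Ioo 0 n → (n : ℝ) ≤ K.card * Real.log n ^ A → Many n r y g₀ G c K) ∧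
    c * n / Real.log n ≤ ((Chen n).card : ℝ) ∧ Many n r y g₀ G c (Chen n) := by
  obtain ⟨c1, hc1, _, hst⟩ := Pool.Agent.X28.CS.stepDiagR
  obtain ⟨c2, hc2, n1, hch⟩ := Pool.Agent.Results.MP_04e9b2_nt.ChenIndicesAndShifts.chen_low
  obtain ⟨n2, hn2⟩ := Pool.Agent.X28.SX.nth_le
  obtain ⟨n3, hn3⟩ := Pool.Agent.X28.SX.nth_nth_le
  obtain ⟨n4, hn4⟩ := Pool.Agent.H373R2.T7.ev_L' (1 / c2 + 1)
  refine ⟨min c1 c2, by positivity, fun r A C => ?_⟩
  obtain ⟨K0, h1⟩ := hst r (A + 2) 5 C
  refine ⟨K0, fun K1 => ?_⟩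
  obtain ⟨n5, h2⟩ := h1 K1
  refine ⟨max (max n1 n2) (max (max n3 n4) (max n5 2)), fun n hn y hy1 hy2 g₀ G hG1 hG2 => ?_⟩
  have hL := hn4 n (by omega)
  have hc2' : 0 < 1 / c2 := by positivity
  have hL1 : 1 ≤ Real.log n := by linarith
  have hchn := hch n (by omega)
  have main : ∀ K : Finset ℕ, K ⊆ Ioo 0 n → (n : ℝ) ≤ K.card * Real.log n ^ (A + 2) → Many n r y g₀ G c1 K := by
    intro K hK hKc
    have key := h2 n (by omega) y hy1 hy2 K hKc p (fun k => p (p (n - k)))
      (by
        intro a ha b hb hab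
        have ha' := mem_Ioo.1 (hK (mem_coe.1 ha))
        have hb' := mem_Ioo.1 (hK (mem_coe.1 hb))
        exact Pool.Agent.X28.SX.nth_inj' (by omega) (by omega) hab)
      (by
        intro a ha b hb hab
        have ha' := mem_Ioo.1 (hK (mem_coe.1 ha))
        have hb' := mem_Ioo.1 (hK (mem_coe.1 hb))
        have h3 := Pool.Agent.X28.SX.nth_inj' (p_pos (n - a)) (p_pos (n - b)) hab
        have h4 : n - a = n - b := Pool.Agent.X28.SX.nth_inj' (by omega) (by omega) h3
        omega)
      (by
        intro a ha b hb hab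
        have ha' := mem_Ioo.1 (hK (mem_coe.1 ha))
        have hb' := mem_Ioo.1 (hK (mem_coe.1 hb))
        simp only at hab
        by_contra hne
        rcases Nat.lt_or_gt_of_ne hne with h | h
        · have e1 := p_mono (by omega : 1 ≤ a) h
          have e2 := p_mono (p_pos (n - b)) (p_mono (by omega : 1 ≤ n - b) (by omega : n - b < n - a))
          omega
        · have e1 := p_mono (by omega : 1 ≤ b) h
          have e2 := p_mono (p_pos (n - a)) (p_mono (by omega : 1 ≤ n - a) (by omega : n - a < n - b))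
          omega)
      (by
        intro j hj
        have hj' := mem_Ioo.1 (hK hj)
        refine ⟨⟨Nat.prime_nth_prime _, ?_⟩, Nat.prime_nth_prime _, hn3 n (by omega) (n - j) (by omega)⟩
        refine (hn2 n (by omega) j (by omega)).trans ?_
        exact mul_le_mul_of_nonneg_left (pow_le_pow_right₀ hL1 (by norm_num)) (Nat.cast_nonneg _))
      g₀ G hG1 hG2
    exact key
  have hmn : 0 ≤ min c1 c2 := by positivity
  refine ⟨fun K hK hKc => ?_, ?_, ?_⟩
  · apply Many_mono n r y g₀ G _ c1 hmn (min_le_left _ _)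
    apply main K hK
    refine hKc.trans ?_
    exact mul_le_mul_of_nonneg_left (pow_le_pow_right₀ hL1 (by omega)) (Nat.cast_nonneg _)
  · refine le_trans ?_ hchn
    have h0 : min c1 c2 ≤ c2 := min_le_right _ _
    gcongr
  · apply Many_mono n r y g₀ G _ c1 hmn (min_le_left _ _)
    apply main (Chen n) (filter_subset _ _)
    have h0 : c2 * n / Real.log n ≤ ((Chen n).card : ℝ) := hchn
    have hL0 : 0 < Real.log n := by linarith
    rw [div_le_iff₀ hL0] at h0
    have hcL : 1 ≤ c2 * Real.log n := by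
      have : c2 * (1 / c2) = 1 := by field_simp
      nlinarith
    have hn0 : (0 : ℝ) ≤ n := Nat.cast_nonneg _
    have hcard : (0 : ℝ) ≤ ((Chen n).card : ℝ) := Nat.cast_nonneg _
    calc (n : ℝ) ≤ (c2 * Real.log n) * n := by nlinarith
      _ = (c2 * n) * Real.log n := by ring
      _ ≤ (((Chen n).card : ℝ) * Real.log n) * Real.log n := by gcongr
      _ = ((Chen n).card : ℝ) * Real.log n ^ 2 := by ring
      _ ≤ ((Chen n).card : ℝ) * Real.log n ^ (A + 2) :=
          mul_le_mul_of_nonneg_left (pow_le_pow_right₀ hL1 (by omega)) hcard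

end Pool.Agent.Results.MP_04e9b2_nt.CommonShift
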