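import Mathlib
import Pool.Agent.X28.SP.VecG
import Pool.Agent.X28.SX.StepI

/-!
# Decompositions `n = k + m` with `p_k + t`, `p_{p_m} + u` prime, for shifts up to `exp (n ^ (1 / r))`

For every large `n` the shifts may be exponentially large in terms of `n`. The number of decompositions that is needed
is then, up to a constant, as small as it can possibly be.
-/

set_option autoImplicit false

open Finset

namespace Pool.Agent.Results.MP_04e9b2_nt.ExponentialShiftRanges

/-- the `k`-th prime, `p 1 = 2` -/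
noncomputable def p (k : ℕ) : ℕ := Nat.nth Nat.Prime (k - 1)

/-- the primes `p_k` and `p_{p_m}` of the question, `m = n - k` -/
noncomputable def base (n : ℕ) (c : Fin 2) (k : ℕ) : ℕ := ![p k, p (p (n - k))] c

/-- the vectors `(h_1, ..., h_r)` with entries in `[1, X]` -/
def Box (r X : ℕ) : Finset (Fin r → ℕ) := Fintype.piFinset fun _ => Icc 1 X

/-- the `k ∈ K` for which all the numbers `p_k + h_j` (for `e j = 0`) and `p_{p_m} + h_j` (for `e j = 1`),
`m = n - k`, are prime -/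
noncomputable def Good (n : ℕ) (K : Finset ℕ) {r : ℕ} (e : Fin r → Fin 2) (h : Fin r → ℕ) : Finset ℕ :=
  K.filter (fun k => ∀ j, (base n (e j) k + h j).Prime)

theorem base_inj (n : ℕ) (c : Fin 2) : Set.InjOn (base n c) (Ioo 0 n : Finset ℕ) := by
  intro a ha b hb hab
  rw [mem_coe, mem_Ioo] at ha hb
  have key : ∀ x z : ℕ, 1 ≤ x → 1 ≤ z → p x = p z → x = z := fun x z h1 h2 h => Pool.Agent.X28.SX.nth_inj' h1 h2 h
  have h1 : ∀ x : ℕ, 1 ≤ p x := fun x => by
    have := Pool.Agent.X28.SX.nth_two (x - 1)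
    unfold p
    omega
  fin_cases c
  · exact key a b (by omega) (by omega) hab
  · have h2 := key _ _ (h1 _) (h1 _) (show p (p (n - a)) = p (p (n - b)) from hab)
    have := key (n - a) (n - b) (by omega) (by omega) h2
    omega

/-- For every `r ≥ 1` there are `c, C > 0` and `n₀` such that for all `n ≥ n₀`, all `X ≥ n ^ 96`, all choices
`e : {1, ..., r} → {0, 1}` and all sets `K` of integers `0 < k < n`:
(1) if `#K ≥ (log X) ^ r`, then for at least `c X ^ r / (log log n) ^ r` of the vectors `h ∈ [1, X] ^ r` all the numbers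
`p_k + h_j` (`e j = 0`) and `p_{p_m} + h_j` (`e j = 1`), `m = n - k`, are prime for at least `c #K / (log X) ^ r` of the
`k ∈ K`;
(2) for at most `C #K X ^ r / (log X) ^ r` of the vectors `h ∈ [1, X] ^ r` these numbers are all prime for some `k ∈ K`.
For `r = 2`, `e = (0, 1)` and the set `K` of all `0 < k < n` the numbers are `p_k + h_1`, `p_{p_m} + h_2`, and `X` can be
as large as `exp √(n - 1)`. -/
theorem result (r : ℕ) (hr : 1 ≤ r) : ∃ c C : ℝ, 0 < c ∧ 0 < C ∧ ∃ n₀ : ℕ, ∀ n X : ℕ, n₀ ≤ n → n ^ 96 ≤ X →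
    ∀ e : Fin r → Fin 2, ∀ K : Finset ℕ, K ⊆ Ioo 0 n →
      (Real.log X ^ r ≤ K.card → c * X ^ r / Real.log (Real.log n) ^ r ≤
        (((Box r X).filter fun h => c * K.card / Real.log X ^ r ≤ ((Good n K e h).card : ℝ)).card : ℝ)) ∧
      (((Box r X).filter fun h => (Good n K e h).Nonempty).card : ℝ) ≤ C * K.card * X ^ r / Real.log X ^ r := by
  obtain ⟨c, hc, N0, h0⟩ := Pool.Agent.X28.SP.generalV r hr
  obtain ⟨C, hC, hU⟩ := Pool.Agent.X28.SP.upperV r
  obtain ⟨n2, hn2⟩ := Pool.Agent.X28.SX.nth_le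
  obtain ⟨n3, hn3⟩ := Pool.Agent.X28.SX.nth_nth_le
  obtain ⟨n4, hn4⟩ := Pool.Agent.H373R2.T7.ev_L' 1
  obtain ⟨n5, hn5⟩ := Pool.Agent.Y843.HS.log_pow_le 5 1
  refine ⟨c, C, hc, hC, max (max N0 n2) (max (max n3 n4) (max n5 2)), fun n X hn hX e K hK => ?_⟩
  have hL1 := hn4 n (by omega)
  have hlog := hn5 n (by omega)
  rw [one_mul] at hlog
  have hpow : (n : ℝ) * Real.log n ^ 2 ≤ n * Real.log n ^ 5 :=
    mul_le_mul_of_nonneg_left (pow_le_pow_right₀ hL1 (by norm_num)) (Nat.cast_nonneg _)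
  have hsq : (n : ℝ) * Real.log n ^ 5 ≤ (n : ℝ) ^ 2 := by
    rw [sq (n : ℝ)]
    exact mul_le_mul_of_nonneg_left hlog (Nat.cast_nonneg _)
  have hbd : ∀ c : Fin 2, ∀ k ∈ Ioo 0 n, 1 ≤ base n c k ∧ base n c k ≤ n ^ 2 := by
    intro c k hk
    rw [mem_Ioo] at hk
    fin_cases c
    · refine ⟨(Nat.prime_nth_prime _).one_lt.le, ?_⟩
      exact_mod_cast ((hn2 n (by omega) k (by omega)).trans hpow).trans hsq
    · refine ⟨(Nat.prime_nth_prime _).one_lt.le, ?_⟩
      exact_mod_cast (hn3 n (by omega) (n - k) (by omega)).trans hsq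
  have hn1 : 1 ≤ n := by omega
  have h25 : n ^ 2 ≤ n ^ 5 := Nat.pow_le_pow_right hn1 (by norm_num)
  have h2X : n ^ 2 ≤ X := (Nat.pow_le_pow_right hn1 (by norm_num)).trans hX
  have hX2 : 2 ≤ X := le_trans (by omega) ((Nat.le_self_pow (show 96 ≠ 0 by norm_num) n).trans hX)
  refine ⟨fun hm => ?_, ?_⟩
  · exact h0 n X K (fun j => base n (e j)) (by omega) (fun j => (base_inj n (e j)).mono (by exact_mod_cast hK))
      (fun j k hk => ⟨(hbd (e j) k (hK hk)).1, (hbd (e j) k (hK hk)).2.trans h25⟩) hX hm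
  · exact hU X K (fun j => base n (e j)) hX2 (fun j k hk => (hbd (e j) k (hK hk)).2.trans h2X)

end Pool.Agent.Results.MP_04e9b2_nt.ExponentialShiftRanges
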